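import Pool.Agent.Lib.MP_b5021c_nt.IfaceF

/-!
# E2C: the edges of an element of the class `DD`
-/

namespace Pool.Agent.B5.H44

open scoped LaurentPolynomial

/-- Multiplication by a constant, coefficientwise. -/
theorem cst_mul_coeff {O : Type} [CommRing O] {L : Type} [AddCommGroup L] (c : RO O) (G : AO O L)
    (a : L) : (cst c * G).coeff a = c * G.coeff a := by
  unfold cst
  exact AddMonoidAlgebra.coeff_single_zero_mul G c a

theorem gpart_coeff {K : Type} [Semiring K] {L : Type} [AddCommGroup L] (lam : L →+ ℤ) (c : ℤ)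
    (G : AddMonoidAlgebra K L) (a : L) :
    (gpart lam c G).coeff a = if lam a = c then G.coeff a else 0 := by
  classical
  unfold gpart
  exact Finsupp.filter_apply _ _ _

theorem rk_le_of_subset {L : Type} [AddCommGroup L] [Module.Free ℤ L] [Module.Finite ℤ L]
    {S : Set L} (T : Finset L) (h : ∀ a ∈ S, a ∈ Submodule.span ℤ (T : Set L)) :
    rk S ≤ T.card := by
  have h1 : Submodule.span ℤ S ≤ Submodule.span ℤ (T : Set L) := Submodule.span_le.mpr h
  exact (Submodule.finrank_mono h1).trans (finrank_span_finset_le_card T)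

theorem e2c (h2 : B2cS) (h3 : B3S) (hc : C3S) (hp : PrimS) (hr : RaySpanS) : E2S := by
  intro O _ _ _ _ P L _ _ _ _ _ phi D hD hL
  obtain ⟨hD0, mu, hmu, _⟩ := id hD.st
  have h0 : (0 : L) ∈ supp D := hD0
  have hrk : 2 ≤ rk (supp D) := by rw [hD.spn]; exact hL
  have hW : Wdep D := by
    by_contra hW
    have hsub : ∀ a ∈ supp D, a ∈ Submodule.span ℤ ((∅ : Finset L) : Set L) := by
      intro a ha
      have : a = 0 := by
        by_contra hne
        exact hW ⟨a, ha, 0, h0, hne⟩
      rw [this]; exact Submodule.zero_mem _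
    have := rk_le_of_subset ∅ hsub
    simp at this
    omega
  have hPr : Prim D := (hp O L D D).2.1 hD.irr hW
  have hz : ∀ z : Circle, evR z (D.coeff 0) ≠ 0 := h3 O L D hD.st hPr
  have hT : Thin (supp D) := by
    intro a ha b hb m n hm hn hmn
    apply hD.inj
    funext i
    have h4 : m • phi a = n • phi b := by rw [← map_nsmul, ← map_nsmul, hmn]
    have h5 := congrFun h4 i
    simp only [Pi.smul_apply, nsmul_eq_mul] at h5
    rcases hD.bin a ha i with h6 | h6 <;> rcases hD.bin b hb i with h7 | h7 <;>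
      rw [h6, h7] at h5 ⊢ <;> simp at h5 <;> omega
  obtain ⟨_, hrs, _⟩ := hr O L D ⟨mu, hmu⟩ hT
  refine ⟨hz, hT, hW, hPr, hrs.trans hD.spn, ?_⟩
  intro S hS
  refine ⟨(h2 O L D hD.st).2 S hS, ?_⟩
  by_contra hcon
  push Not at hcon
  obtain ⟨hSs, hS0, lam, hlS, hlam⟩ := hS
  obtain ⟨c, h, hc0, hch, hPh⟩ := (hp O L (gpart lam 0 D) (gpart lam 0 D)).2.2 (by
    intro hg
    have := congrArg (fun G : AO O L => G.coeff 0) hg
    simp only [gpart_coeff, map_zero, if_true] at this
    exact hD0 this)
  have hlm : ∀ a ∈ supp D, a ≠ 0 → a ≠ S → lam a ≠ 0 := fun a ha h1 h2 => (hlam a ha h1 h2).ne'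
  -- coefficients of `h`
  have hco : ∀ a : L, c * h.coeff a = if lam a = 0 then D.coeff a else 0 := by
    intro a
    rw [← cst_mul_coeff, ← hch, gpart_coeff]
  have hh0 : c * h.coeff 0 = D.coeff 0 := by rw [hco]; simp
  have hhS : c * h.coeff S = D.coeff S := by rw [hco, if_pos hlS]
  have hha : ∀ a : L, h.coeff a ≠ 0 → a = 0 ∨ a = S := by
    intro a ha
    by_contra hne
    push Not at hne
    have h8 : c * h.coeff a ≠ 0 := mul_ne_zero hc0 ha
    rw [hco] at h8
    by_cases h9 : lam a = 0
    · rw [if_pos h9] at h8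
      exact hlm a h8 hne.1 hne.2 h9
    · rw [if_neg h9] at h8; exact h8 rfl
  have hh0' : h.coeff 0 ≠ 0 := by
    intro h8; rw [h8, mul_zero] at hh0; exact hD0 hh0.symm
  have hhS' : h.coeff S ≠ 0 := by
    intro h8; rw [h8, mul_zero] at hhS; exact hSs hhS.symm
  have hmuS : 0 < mu S := hmu S (Finsupp.mem_support_iff.mpr hSs) hS0
  have hfull : FullAt mu h := by
    refine ⟨hh0', ?_, ?_⟩
    · intro a ha ha0
      rcases hha a (Finsupp.mem_support_iff.mp ha) with h8 | h8
      · exact absurd h8 ha0
      · rw [h8]; exact hmuS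
    · intro z _ u s hs
      have hcz : evR z c ≠ 0 := by
        intro h8
        apply hz z
        rw [← hh0, map_mul, h8, zero_mul]
      have hnorm : ‖evR z (h.coeff S)‖ = ‖evR z (h.coeff 0)‖ := by
        have h8 := hcon z
        rw [← hh0, ← hhS, map_mul, map_mul, norm_mul, norm_mul] at h8
        exact mul_left_cancel₀ (norm_ne_zero_iff.mpr hcz) h8
      have hz0 : ‖evR z (h.coeff 0)‖ ≠ 0 := by
        intro h8
        apply hz z
        rw [← hh0, map_mul, norm_eq_zero.mp h8, mul_zero]
      classical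
      have hsub : (spec z h).coeff.support ⊆ ({0, S} : Finset L) := by
        intro a ha
        rw [Finsupp.mem_support_iff, spec_coeff] at ha
        have h8 : h.coeff a ≠ 0 := by
          intro h9; rw [h9, map_zero] at ha; exact ha rfl
        rcases hha a h8 with h9 | h9 <;> simp [h9]
      have hev : (sl u mu (spec z h)).eval s =
          evR z (h.coeff 0) + evR z (h.coeff S) * (u S : ℂ) * s ^ (mu S).toNat := by
        unfold sl
        rw [Finsupp.sum_of_support_subset _ hsub _ (by intro a _; simp),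
          Finset.sum_pair (Ne.symm hS0), Polynomial.eval_add, Polynomial.eval_monomial,
          Polynomial.eval_monomial, spec_coeff, spec_coeff]
        simp
      rw [hev] at hs
      have h8 : ‖evR z (h.coeff S) * (u S : ℂ) * s ^ (mu S).toNat‖ = ‖evR z (h.coeff 0)‖ := by
        rw [← norm_neg (evR z (h.coeff 0))]
        congr 1
        linear_combination hs
      rw [norm_mul, norm_mul, Circle.norm_coe, mul_one, hnorm, norm_pow] at h8
      have h9 : ‖s‖ ^ (mu S).toNat = 1 := by
        have := mul_left_cancel₀ hz0 (h8.trans (mul_one _).symm)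
        exact this
      exact (pow_eq_one_iff_of_nonneg (norm_nonneg s) (by omega)).mp h9
  have hfin := hc O L D h lam mu hD.irr hD.st (by
      intro a ha
      by_cases h8 : a = 0
      · rw [h8, map_zero]
      · by_cases h9 : a = S
        · rw [h9, hlS]
        · exact (hlam a (Finsupp.mem_support_iff.mp ha) h8 h9).le)
    hfull hPh ⟨0, hh0', S, hhS', Ne.symm hS0⟩ ⟨cst c, by rw [mul_comm]; exact hch⟩
  have hsub : ∀ a ∈ supp D, a ∈ Submodule.span ℤ (({S} : Finset L) : Set L) := by
    intro a ha
    by_cases h8 : a = 0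
    · rw [h8]; exact Submodule.zero_mem _
    · by_cases h9 : a = S
      · rw [h9]; exact Submodule.subset_span (by simp)
      · exact absurd (hfin.2 a ha) (hlm a ha h8 h9)
  have := rk_le_of_subset {S} hsub
  simp at this
  omega

end Pool.Agent.B5.H44
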